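import Mathlib
import Pool.Agent.Lib.MP_eacabd_co.Clo8.AllC

set_option autoImplicit false

namespace Pool.Agent.Results.MP_eacabd_co.CubeClosure

open Pool.Agent.Lib.MP_eacabd_co.Gold8 Pool.Agent.Lib.MP_eacabd_co.Clo8

/-- Let `n ≥ 610`, `|F| = 2^n`. The functions obtained from the cube `x^3` by any number of
EA-equivalences and changes of one coordinate function which lead to APN functions are exactly the
functions EA-equivalent to `x^3`, to `x^3 + a⁻¹ Tr(a^3 x^9)` or, if `3 ∣ n`, to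
`x^3 + a⁻¹ Tr3(a^3 x^9 + a^6 x^18)` or `x^3 + a⁻¹ Tr3(a^6 x^18 + a^12 x^36)`, where `a = 1` or `a`
is not a cube. All of them are quadratic, and do not have property (N). -/
theorem result : ∀ n : ℕ, 610 ≤ n → ∀ (F : Type) [Field F] [Fintype F], Fintype.card F = 2 ^ n →
    ∀ G : F → F,
    (Relation.ReflTransGen Step (fun x => x ^ 3) G ↔
      EA G (fun x => x ^ 3) ∨ ∃ a : F, (a = 1 ∨ ∀ b : F, b ^ 3 ≠ a) ∧
        (EA G (fun x => x ^ 3 + a⁻¹ * Tr n (a ^ 3 * x ^ 9)) ∨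
          3 ∣ n ∧ (EA G (fun x => x ^ 3 + a⁻¹ * Tr3 n (a ^ 3 * x ^ 9 + a ^ 6 * x ^ 18)) ∨
            EA G (fun x => x ^ 3 + a⁻¹ * Tr3 n (a ^ 6 * x ^ 18 + a ^ 12 * x ^ 36))))) ∧
    (Relation.ReflTransGen Step (fun x => x ^ 3) G → IsQuadratic G ∧ ¬ PropN G) :=
  fun _ hn _ _ _ hF G => cube_class_all hn hF G

end Pool.Agent.Results.MP_eacabd_co.CubeClosure
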