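import Mathlib
import Pool.Agent.Lib.MP_eacabd_co.Uni8.AllU

set_option autoImplicit false

namespace Pool.Agent.Results.MP_eacabd_co.GoldSwitchAll

open Pool.Agent.Lib.MP_eacabd_co.Gold8 Pool.Agent.Lib.MP_eacabd_co.Wide8
  Pool.Agent.Lib.MP_eacabd_co.Uni8

/-- Let `n ≥ 303`, `gcd (i, n) = 1`, `i` not `1` or `-1` modulo `n`, `|F| = 2^n`. Every function
obtained from the Gold function `x^(2^i+1)` by any number of CCZ-equivalences and changes of one
coordinate function which lead to APN functions is CCZ-equivalent to `x^(2^i+1)`, and does not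
have property (N). -/
theorem result : ∀ i n : ℕ, 303 ≤ n → Nat.Coprime i n → i % n ≠ 1 → i % n ≠ n - 1 →
    ∀ (F : Type) [Field F] [Fintype F], Fintype.card F = 2 ^ n →
    ∀ G : F → F, Relation.ReflTransGen StepCCZ (fun x => x ^ (2 ^ i + 1)) G →
    CCZ G (fun x => x ^ (2 ^ i + 1)) ∧ ¬ PropN G :=
  goldUniMod switchU rig

end Pool.Agent.Results.MP_eacabd_co.GoldSwitchAll
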