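import Mathlib
import Pool.Agent.Lib.MP_eacabd_co.Inv8.AllI

set_option autoImplicit false

namespace Pool.Agent.Results.MP_eacabd_co.InverseSwitch

open Pool.Agent.Lib.MP_eacabd_co.Gold8 Pool.Agent.Lib.MP_eacabd_co.Inv8

/-- Let `n ≥ 3`, `|F| = 2^n`. Every function obtained from the inverse function `x⁻¹` (`0⁻¹ = 0`) by
any number of EA-equivalences and changes of one coordinate function which lead to APN functions is
EA-equivalent to the inverse function, and does not have property (N). -/
theorem result : ∀ n : ℕ, 3 ≤ n → ∀ (F : Type) [Field F] [Fintype F], Fintype.card F = 2 ^ n →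
    ∀ G : F → F, Relation.ReflTransGen Step (fun x => x⁻¹) G →
    EA G (fun x => x⁻¹) ∧ ¬ PropN G :=
  invChain invEA

end Pool.Agent.Results.MP_eacabd_co.InverseSwitch
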