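import Pool.Agent.Lib.AbHyp8.Nine

set_option autoImplicit false

namespace Pool.Agent.Results.MP_eacabd_co.QuadHyperplane

open Pool.Agent.Lib.AbHyp8

/-- APN functions with a hyperplane of quadratic components. Let `n` be odd, `G` an APN function
on `F_2^n`, not of degree at most two, and `w ≠ 0` such that all components `v·G` with `v·w = 0`
have degree at most two. Then:

(1) no component `v·G` with `v·w = 1` is the sum of a function of degree at most two and of a
function constant on the cosets of a subgroup of index at most 16;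

(2) if `G` is AB, or if `G + f w` is APN and has degree at most two for some Boolean function `f`,
then `n ≥ 9`, and there are at least `2^(2n+5)` Boolean functions `g` of degree at most two such
that `H + g w` is APN for every APN function `H = G + f w`, `f` Boolean. -/
theorem result (n : ℕ) (hn : Odd n) (G : V n → V n) (hG : IsAPN G) (w : V n) (hw : w ≠ 0)
    (hq : ∀ v : V n, dot v w = 0 → DegLeTwo (comp v G)) (hd : ¬ ∀ v : V n, DegLeTwo (comp v G)) :
    (∀ v : V n, dot v w = 1 → ¬ ∃ (S : AddSubgroup (V n)) (g : V n → ZMod 2),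
      2 ^ n ≤ 16 * Nat.card S ∧ DegLeTwo g ∧
        ∀ s ∈ S, ∀ x, comp v G (x + s) + g (x + s) = comp v G x + g x) ∧
    ((IsAB G ∨ ∃ f : V n → ZMod 2, IsAPN (fun x => G x + f x • w) ∧
        ∀ v : V n, DegLeTwo (comp v (fun x => G x + f x • w))) →
      9 ≤ n ∧ 2 ^ (2 * n + 5) ≤ Nat.card {g : V n → ZMod 2 // DegLeTwo g ∧ ∀ f : V n → ZMod 2,
        IsAPN (fun x => G x + f x • w) → IsAPN (fun x => G x + (f x + g x) • w)}) := by
  constructor
  · rintro v hv ⟨S, g, hS, hg, hfg⟩
    exact hd (part_one hn G hG w hw hq v hv S hS g hg hfg)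
  · intro h
    push Not at hd
    obtain ⟨v, hv⟩ := hd
    have hr : ∀ v, v ≠ 0 → dot v w = 0 →
        Nat.card {a : V n // ∀ b, pol (comp v G) a b = 0} = 2 := by
      rcases h with h | ⟨f, hF, hFq⟩
      · exact hr_of_AB hn G h w hq
      · refine hr_of_switch hn G (fun x => G x + f x • w) f w hF hFq ?_
        intro x
        rw [add_assoc, vv, add_zero]
    exact ⟨nine hn G hG w hw hq hr v hv, part_two G hG w hw hq hr v hv⟩

end Pool.Agent.Results.MP_eacabd_co.QuadHyperplane
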